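import Pool.Agent.MWBN.Stmts
import Pool.Agent.Helper39_MWS.CbLem
import Pool.Agent.Helper49_MWS.FEX

/-!
# Row FEN of block MWBN (helper34): the bit `F` gives edges
-/

set_option autoImplicit false

namespace Pool.Agent.MWBN.H34

open Pool.Agent.Helper14_MV Pool.Agent.Helper2_MV Pool.Agent.MVO Pool.Agent.MWL Pool.Agent.MWS
open Pool.Agent.MWS.H39 Pool.Agent.MWS.H49

theorem rep_flat (f : ℕ → List ℕ) (c x : ℕ) (h : f c = [x]) (m : ℕ) :
    (List.replicate m c).flatMap f = List.replicate m x := by
  induction m with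
  | zero => rfl
  | succ m ih => rw [List.replicate_succ, List.flatMap_cons, ih, h]; rfl

/-- canonical words with other words in block `i` -/
theorem cb_change (nfn : NfnStmt) {n : ℕ} {V : ℕ → (ℕ → ℕ) → (ℕ → ℕ) → ℕ → Prop} {β : FIC}
    (hV : VisOk V) (hC : ClVn n V β) {k : ℕ} {a b : ℕ → ℕ} {i : ℕ} (h : V k a b i)
    {l l' : List ℕ} (hl : LL l) (hl' : LL l') (h0 : l.count 0 ≡ l'.count 0 [MOD n])
    (h1 : l.count 1 ≡ l'.count 1 [MOD n]) (hb : Bef l 0 1 ↔ Bef l' 0 1)
    (hb' : Bef l 1 0 ↔ Bef l' 1 0) (e : ℕ → Bool) :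
    RR β (asm k (cb a b e i l)) (asm k (cb a b e i l')) := by
  obtain ⟨hi, hai, hbi⟩ := hV.mem _ _ _ _ h
  refine nfn n V β β hV hC (fic_le_refl β) k _ _ (cb_ok hl hi) (cb_ok hl' hi) ?_ ?_
  · intro j _ c
    by_cases hj : j = i
    · subst hj
      rw [cb_self, cb_self]
      by_cases c0 : c = 0
      · subst c0
        exact ⟨⟨fun _ => hl'.m0, fun _ => hl.m0⟩, h0⟩
      · by_cases c1 : c = 1
        · subst c1
          exact ⟨⟨fun _ => hl'.m1, fun _ => hl.m1⟩, h1⟩
        · have e1 : c ∉ l := fun hc => by
            rcases hl.mem c hc with h | h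
            · exact c0 h
            · exact c1 h
          have e2 : c ∉ l' := fun hc => by
            rcases hl'.mem c hc with h | h
            · exact c0 h
            · exact c1 h
          refine ⟨⟨fun hc => absurd hc e1, fun hc => absurd hc e2⟩, ?_⟩
          rw [List.count_eq_zero.2 e1, List.count_eq_zero.2 e2]
    · rw [cb_ne hj, cb_ne hj]
      exact ⟨Iff.rfl, rfl⟩
  · intro x y i' hxy h2 h3
    obtain ⟨rfl, hc⟩ := vis_two hV h (cb_two hl)
      (fun j _ => ⟨cb_mem0 hl hai j, cb_mem1 hl hbi j⟩) hxy h2
    rw [cb_self, cb_self] at h3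
    rcases hc with ⟨rfl, rfl⟩ | ⟨rfl, rfl⟩
    · exact absurd hb h3
    · exact absurd hb' h3

/-- row FEN -/
theorem fen (nfn : NfnStmt) : FenStmt := by
  intro n V β θ hV hC hθ hF k a b i h hcase e
  obtain ⟨hik, hai, hbi⟩ := hV.mem _ _ _ _ h
  have hn : 1 ≤ n := hC.pos
  have hF1 : RR θ (mw 2 (v3 2 0 2)) (mw 2 (ad n (v3 2 0 2) 1)) := hF
  have e1 : mw 2 (v3 2 0 2) = [0, 0, 2, 3, 0, 0] := by decide
  have e2 : mw 2 (ad n (v3 2 0 2) 1) = [0, 0, 2] ++ (List.replicate (2 * n) 0 ++ [3, 0, 0]) := by
    simp [mw, asm, ad, v3, List.replicate]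
  rw [e1, e2] at hF1
  have hmod : 2 * n + 2 ≡ 2 [MOD n] := by
    have := (Nat.modEq_zero_iff_dvd.2 (Dvd.intro_left 2 rfl : n ∣ 2 * n)).add_right 2
    simpa using this
  unfold edg
  rcases hcase with ⟨j, hj, hbj⟩ | ⟨j, hij, hjk, haj⟩
  · have h1 : RR θ (asm k (cb a b e i [0, 0, 1, 1]))
        (asm k (cb a b e i (0 :: (List.replicate (2 * n) 1 ++ [0, 1, 1])))) := by
      simp only [cb_eq, asm_update hik]
      generalize hC' : (fun j => bl (hv (a j)) (hv (b j)) (e j)) = C
      obtain ⟨R, hR⟩ := pre_split (B := C) hj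
      obtain ⟨s, t, hst⟩ := bl_one (hv (a j)) (hv (b j)) (e j) (hv_two hbj)
      have hCj : C j = s ++ [1, 1] ++ t := by rw [← hC']; exact hst
      have hpre : pre C i = (pre C j ++ s) ++ ([1, 1] ++ (t ++ R)) := by
        rw [hR, hCj]
        simp
      rw [hpre]
      generalize pre C j ++ s = p1
      generalize t ++ R = p2
      generalize suf C i (k - i) = q
      have h := (RR.refl (β := θ) p1).append ((hF1.sub (fun c => if c = 0 then [1] else
        if c = 2 then p2 ++ [0] else [0])).append (RR.refl (β := θ) q))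
      simp only [List.flatMap_append, rep_flat (fun c => if c = 0 then [1] else
        if c = 2 then p2 ++ [0] else [0]) 0 1 (by simp)] at h
      simpa using h
    have h2 : RR β (asm k (cb a b e i (0 :: (List.replicate (2 * n) 1 ++ [0, 1, 1]))))
        (asm k (cb a b e i [0, 1, 0, 1])) := by
      have c0 : (0 :: (List.replicate (2 * n) 1 ++ [0, 1, 1]) : List ℕ).count 0 = 2 := by
        simp [List.count_replicate]
      have c1 : (0 :: (List.replicate (2 * n) 1 ++ [0, 1, 1]) : List ℕ).count 1 = 2 * n + 2 := by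
        simp [List.count_replicate]
      refine cb_change nfn hV hC h ⟨?_, ?_, ?_⟩ ll_b ?_ ?_ ?_ ?_ e
      · intro c hc
        simp only [List.mem_cons, List.mem_append, List.mem_replicate, List.not_mem_nil,
          or_false] at hc
        tauto
      · rw [c0]
      · rw [c1]; omega
      · rw [c0]; rfl
      · rw [c1]; exact hmod
      · refine iff_of_false ?_ bef_b
        rw [bef_iff, not_not]
        refine List.Sublist.cons _ ?_
        have : ([1] ++ [0] : List ℕ).Sublist (List.replicate (2 * n) 1 ++ [0, 1, 1]) := by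
          refine List.Sublist.append (List.singleton_sublist.2 ?_)
            (List.singleton_sublist.2 (by simp))
          rw [List.mem_replicate]
          exact ⟨by omega, rfl⟩
        exact this
      · refine iff_of_false ?_ bef_b'
        rw [bef_iff, not_not]
        refine List.Sublist.cons_cons 0 (List.singleton_sublist.2 ?_)
        simp
    exact θ.trans h1 (hθ _ _ h2)
  · have h1 : RR θ (asm k (cb a b e i [0, 0, 1, 1]))
        (asm k (cb a b e i ([0, 0, 1] ++ (List.replicate (2 * n) 0 ++ [1])))) := by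
      simp only [cb_eq, asm_update hik]
      generalize hC' : (fun j => bl (hv (a j)) (hv (b j)) (e j)) = C
      obtain ⟨R, R', hR⟩ := suf_split (B := C) (r := k - i) hij (by omega)
      obtain ⟨s, t, hst⟩ := bl_zero (hv (a j)) (hv (b j)) (e j) (hv_two haj)
      have hCj : C j = s ++ [0, 0] ++ t := by rw [← hC']; exact hst
      have hsuf : suf C i (k - i) = (R ++ s) ++ ([0, 0] ++ (t ++ R')) := by
        rw [hR, hCj]
        simp
      rw [hsuf]
      generalize R ++ s = q1
      generalize t ++ R' = q2
      generalize pre C i = p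
      have h := (RR.refl (β := θ) p).append ((hF1.sub (fun c => if c = 0 then [0] else
        if c = 2 then [1] else 1 :: q1)).append (RR.refl (β := θ) q2))
      simp only [List.flatMap_append, rep_flat (fun c => if c = 0 then [0] else
        if c = 2 then [1] else 1 :: q1) 0 0 (by simp)] at h
      simpa using h
    have h2 : RR β (asm k (cb a b e i ([0, 0, 1] ++ (List.replicate (2 * n) 0 ++ [1]))))
        (asm k (cb a b e i [0, 1, 0, 1])) := by
      have c0 : ([0, 0, 1] ++ (List.replicate (2 * n) 0 ++ [1]) : List ℕ).count 0 = 2 * n + 2 := by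
        simp [List.count_replicate]
      have c1 : ([0, 0, 1] ++ (List.replicate (2 * n) 0 ++ [1]) : List ℕ).count 1 = 2 := by
        simp [List.count_replicate]
      refine cb_change nfn hV hC h ⟨?_, ?_, ?_⟩ ll_b ?_ ?_ ?_ ?_ e
      · intro c hc
        simp only [List.mem_cons, List.mem_append, List.mem_replicate, List.not_mem_nil,
          or_false] at hc
        tauto
      · rw [c0]; omega
      · rw [c1]
      · rw [c0]; exact hmod
      · rw [c1]; rfl
      · refine iff_of_false ?_ bef_b
        rw [bef_iff, not_not]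
        have : ([1] ++ [0] : List ℕ).Sublist ([0, 0, 1] ++ (List.replicate (2 * n) 0 ++ [1])) := by
          refine List.Sublist.append (List.singleton_sublist.2 (by simp))
            (List.singleton_sublist.2 ?_)
          rw [List.mem_append, List.mem_replicate]
          exact Or.inl ⟨by omega, rfl⟩
        exact this
      · refine iff_of_false ?_ bef_b'
        rw [bef_iff, not_not]
        have : ([0] ++ [1] : List ℕ).Sublist ([0, 0, 1] ++ (List.replicate (2 * n) 0 ++ [1])) := by
          refine List.Sublist.append (List.singleton_sublist.2 (by simp))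
            (List.singleton_sublist.2 ?_)
          simp
        exact this
    exact θ.trans h1 (hθ _ _ h2)

end Pool.Agent.MWBN.H34
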